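import Mathlib

set_option autoImplicit false

/-! # Paving matroids of rank four from systems of blocks -/

namespace Pool.Agent.W313.Pav

open Finset

variable {α : Type*} [DecidableEq α] [Fintype α]

/-- independence: at most three elements, or four elements outside all blocks -/
def PInd (Bl : Finset (Finset α)) (I : Finset α) : Prop :=
  I.card ≤ 3 ∨ (I.card = 4 ∧ ∀ b ∈ Bl, ¬ I ⊆ b)

/-- the system of blocks: every triple is in a block, two blocks share at most two points -/
structure IsSys (Bl : Finset (Finset α)) : Prop where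
  ex : ∀ T : Finset α, T.card = 3 → ∃ b ∈ Bl, T ⊆ b
  uniq : ∀ b ∈ Bl, ∀ b' ∈ Bl, ∀ T : Finset α, T.card = 3 → T ⊆ b → T ⊆ b' → b = b'
  three : ∀ b ∈ Bl, 3 ≤ b.card
  proper : ∀ b ∈ Bl, b ≠ univ

theorem pind_insert {Bl : Finset (Finset α)} (h : IsSys Bl) {T b : Finset α} (hT : T.card = 3)
    (hb : b ∈ Bl) (hTb : T ⊆ b) {x : α} (hx : x ∉ b) : PInd Bl (insert x T) := by
  have hxT : x ∉ T := fun h => hx (hTb h)
  right
  refine ⟨by rw [card_insert_of_notMem hxT, hT], fun b' hb' hsub => hx ?_⟩
  have h1 := h.uniq b hb b' hb' T hT hTb ((subset_insert _ _).trans hsub)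
  rw [h1]
  exact hsub (mem_insert_self _ _)

/-- the paving matroid of a block system -/
def mat (Bl : Finset (Finset α)) (h : IsSys Bl) : Matroid α :=
  (IndepMatroid.ofFinset (E := Set.univ) (Indep := PInd Bl)
    (indep_empty := Or.inl (by simp))
    (indep_subset := by
      intro I J hJ hIJ
      rcases hJ with h1 | ⟨h1, h2⟩
      · exact Or.inl ((card_le_card hIJ).trans h1)
      · by_cases hI : I.card ≤ 3
        · exact Or.inl hI
        · have h3 := card_le_card hIJ
          have h4 : I = J := eq_of_subset_of_card_le hIJ (by omega)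
          subst h4
          exact Or.inr ⟨h1, h2⟩)
    (indep_aug := by
      intro I J hI hJ hlt
      have hJ4 : J.card ≤ 4 := by rcases hJ with h1 | ⟨h1, -⟩ <;> omega
      by_cases hI3 : I.card ≤ 2
      · obtain ⟨e, he, heI⟩ := exists_mem_notMem_of_card_lt_card hlt
        exact ⟨e, he, heI, Or.inl (by rw [card_insert_of_notMem heI]; omega)⟩
      · have hI' : I.card = 3 := by omega
        obtain ⟨b, hb, hIb⟩ := h.ex I hI'
        have hJb : ¬ J ⊆ b := by
          rcases hJ with h1 | ⟨h1, h2⟩
          · omega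
          · exact h2 b hb
        obtain ⟨e, he, heb⟩ := not_subset.1 hJb
        exact ⟨e, he, fun h => heb (hIb h), pind_insert h hI' hb hIb heb⟩)
    (subset_ground := fun I _ => Set.subset_univ _)).matroid

theorem mat_ground (Bl : Finset (Finset α)) (h : IsSys Bl) : (mat Bl h).E = Set.univ := rfl

theorem mat_indep (Bl : Finset (Finset α)) (h : IsSys Bl) (I : Finset α) :
    (mat Bl h).Indep (I : Set α) ↔ PInd Bl I := by
  unfold mat
  rw [IndepMatroid.matroid_Indep]
  exact IndepMatroid.ofFinset_indep ..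

/-- a set is a flat if it is independent and all proper extensions by an element are -/
theorem mem_closure_iff (Bl : Finset (Finset α)) (h : IsSys Bl) (I : Finset α)
    (hI : PInd Bl I) (x : α) :
    x ∈ (mat Bl h).closure I ↔ x ∈ I ∨ ¬ PInd Bl (insert x I) := by
  have hI' := (mat_indep Bl h I).2 hI
  rw [hI'.mem_closure_iff', mat_ground]
  have h1 := mat_indep Bl h (insert x I)
  rw [coe_insert] at h1
  rw [h1]
  simp only [Set.mem_univ, true_and, mem_coe]
  tauto

theorem flat_small (Bl : Finset (Finset α)) (h : IsSys Bl) (I : Finset α) (hI : I.card ≤ 2) :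
    (mat Bl h).IsFlat I := by
  rw [Matroid.isFlat_iff_closure_eq]
  ext x
  rw [mem_closure_iff Bl h I (Or.inl (by omega)), mem_coe]
  constructor
  · rintro (h1 | h1)
    · exact h1
    · exact absurd (Or.inl ((card_insert_le _ _).trans (by omega))) h1
  · exact fun h => Or.inl h

/-- the closure of a triple is its block -/
theorem closure_triple (Bl : Finset (Finset α)) (h : IsSys Bl) {T b : Finset α} (hT : T.card = 3)
    (hb : b ∈ Bl) (hTb : T ⊆ b) : (mat Bl h).closure T = b := by
  ext x
  rw [mem_closure_iff Bl h T (Or.inl (by omega)), mem_coe]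
  constructor
  · rintro (h1 | h1)
    · exact hTb h1
    · by_contra hxb
      exact h1 (pind_insert h hT hb hTb hxb)
  · intro hxb
    by_cases hxT : x ∈ T
    · exact Or.inl hxT
    · right
      rintro (h1 | ⟨h1, h2⟩)
      · rw [card_insert_of_notMem hxT] at h1; omega
      · exact h2 b hb (insert_subset hxb hTb)

theorem flat_block (Bl : Finset (Finset α)) (h : IsSys Bl) {b : Finset α} (hb : b ∈ Bl) :
    (mat Bl h).IsFlat b := by
  obtain ⟨T, hTb, hT⟩ := exists_subset_card_eq (h.three b hb)
  rw [← closure_triple Bl h hT hb hTb]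
  exact Matroid.isFlat_closure _

theorem eRank_le (Bl : Finset (Finset α)) (h : IsSys Bl) : (mat Bl h).eRank ≤ 4 := by
  obtain ⟨B, hB⟩ := (mat Bl h).exists_isBase
  rw [← hB.encard_eq_eRank]
  have h1 := hB.indep
  have h2 : ((B.toFinite.toFinset : Finset α) : Set α) = B := by simp
  rw [← h2, mat_indep] at h1
  rw [← h2, Set.encard_coe_eq_coe_finsetCard]
  have : B.toFinite.toFinset.card ≤ 4 := by rcases h1 with h3 | ⟨h3, -⟩ <;> omega
  exact_mod_cast this

/-- a flat of rank `k` is the closure of an independent set with `k` elements -/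
theorem flat_exists (Bl : Finset (Finset α)) (h : IsSys Bl) {F : Set α} {k : ℕ}
    (hF : (mat Bl h).IsFlat F) (hk : (mat Bl h).eRk F = k) :
    ∃ I : Finset α, PInd Bl I ∧ I.card = k ∧ (mat Bl h).closure I = F := by
  obtain ⟨J, hJ⟩ := (mat Bl h).exists_isBasis F
  have h2 : ((J.toFinite.toFinset : Finset α) : Set α) = J := by simp
  refine ⟨J.toFinite.toFinset, ?_, ?_, ?_⟩
  · rw [← mat_indep Bl h, h2]; exact hJ.indep
  · rw [← hJ.encard_eq_eRk, ← h2, Set.encard_coe_eq_coe_finsetCard] at hk
    exact_mod_cast hk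
  · rw [h2, hJ.closure_eq_closure, hF.closure]

/-- The number of flats of every rank is bounded by the number of pairs and the number of
blocks. -/
theorem whitney_le (Bl : Finset (Finset α)) (h : IsSys Bl) (N : ℕ) (hN1 : 1 ≤ N)
    (hN2 : (Fintype.card α).choose 1 ≤ N) (hN3 : (Fintype.card α).choose 2 ≤ N)
    (hN4 : Bl.card ≤ N) (k : ℕ) :
    {F : Set α | (mat Bl h).IsFlat F ∧ (mat Bl h).eRk F = k}.ncard ≤ N := by
  classical
  have hsmall : k ≤ 2 → {F : Set α | (mat Bl h).IsFlat F ∧ (mat Bl h).eRk F = k}.ncard ≤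
      (Fintype.card α).choose k := by
    intro hk2
    have h1 : {F : Set α | (mat Bl h).IsFlat F ∧ (mat Bl h).eRk F = k} ⊆
        (((univ : Finset α).powersetCard k).image (fun I : Finset α => (I : Set α)) :
          Finset (Set α)) := by
      rintro F ⟨hF, hk⟩
      obtain ⟨I, hI, hc, hcl⟩ := flat_exists Bl h hF hk
      rw [mem_coe, mem_image]
      refine ⟨I, by rw [mem_powersetCard]; exact ⟨subset_univ _, hc⟩, ?_⟩
      rw [← hcl, (flat_small Bl h I (by omega)).closure]
    refine (Set.ncard_le_ncard h1 (finite_toSet _)).trans ?_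
    rw [Set.ncard_coe_finset]
    refine card_image_le.trans ?_
    rw [card_powersetCard, card_univ]
  by_cases hk0 : k = 0
  · have := hsmall (by omega)
    rw [hk0, Nat.choose_zero_right] at this
    rw [hk0]; exact this.trans hN1
  by_cases hk1 : k = 1
  · have := hsmall (by omega)
    rw [hk1] at this
    rw [hk1]; exact this.trans hN2
  by_cases hk2 : k = 2
  · have := hsmall (by omega)
    rw [hk2] at this
    rw [hk2]; exact this.trans hN3
  by_cases hk3 : k = 3
  · subst hk3
    have h1 : {F : Set α | (mat Bl h).IsFlat F ∧ (mat Bl h).eRk F = (3 : ℕ)} ⊆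
        (Bl.image (fun I : Finset α => (I : Set α)) : Finset (Set α)) := by
      rintro F ⟨hF, hk⟩
      obtain ⟨I, hI, hc, hcl⟩ := flat_exists Bl h hF hk
      obtain ⟨b, hb, hIb⟩ := h.ex I hc
      rw [mem_coe, mem_image]
      exact ⟨b, hb, by rw [← hcl, closure_triple Bl h hc hb hIb]⟩
    refine (Set.ncard_le_ncard h1 (finite_toSet _)).trans ?_
    rw [Set.ncard_coe_finset]
    exact card_image_le.trans hN4
  · have h1 : {F : Set α | (mat Bl h).IsFlat F ∧ (mat Bl h).eRk F = k} ⊆ {Set.univ} := by
      rintro F ⟨hF, hk⟩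
      obtain ⟨I, hI, hc, hcl⟩ := flat_exists Bl h hF hk
      have h4 : I.card = 4 ∧ ∀ b ∈ Bl, ¬ I ⊆ b := by
        rcases hI with h5 | h5
        · omega
        · exact h5
      rw [Set.mem_singleton_iff, ← hcl, Set.eq_univ_iff_forall]
      intro x
      rw [mem_closure_iff Bl h I hI]
      by_cases hx : x ∈ I
      · exact Or.inl hx
      · right
        rintro (h5 | ⟨h5, -⟩) <;> rw [card_insert_of_notMem hx] at h5 <;> omega
    exact ((Set.ncard_le_ncard h1 (Set.finite_singleton _)).trans
      (Set.ncard_singleton _).le).trans hN1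

/-- The matroid is paving. -/
theorem paving (Bl : Finset (Finset α)) (h : IsSys Bl) (C : Set α)
    (hC : (mat Bl h).IsCircuit C) : (mat Bl h).eRank ≤ C.encard := by
  refine (eRank_le Bl h).trans ?_
  by_contra hlt
  rw [not_le] at hlt
  have h2 : ((C.toFinite.toFinset : Finset α) : Set α) = C := by simp
  rw [← h2, Set.encard_coe_eq_coe_finsetCard] at hlt
  have h3 : C.toFinite.toFinset.card < 4 := by exact_mod_cast hlt
  apply hC.not_indep
  rw [← h2, mat_indep]
  exact Or.inl (by omega)

end Pool.Agent.W313.Pav
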